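import Mathlib
import Pool.Agent.R888.Spread.Group

set_option autoImplicit false

/-!
# A group of spread exactly one

The group is the group `G` of all piecewise linear homeomorphisms `e` of the line, with slopes powers
of `2` and dyadic breakpoints, such that for some integer `n` we have `e x = x + n` near `-∞` and
`e x = x - n` near `+∞`.  (In the usual model on `[0, 1]` it is the subgroup of all elements `f` of
Thompson's group `F` with `f'(0) = f'(1)`.)

* It is not `2`-spread: a mate `y` of a compactly supported element has `n ≠ 0`, so it has a fixed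
  point, and this point must be moved by the compactly supported element; hence two elements with
  disjoint compact supports have no common mate.
* It is `1`-spread: if `x` moves a small interval `B` to the right of itself, then there is `y`
  contracting the line into `B` such that two words in `x, y` act on `B` as two generators of
  Thompson's group on `B`; so the intersection of `⟨x, y⟩` with Thompson's group on `B` is normal in
  it and contains all elements with support in the interior of `B`.
-/

namespace Pool.Agent.Results.MP_317377_al.SpreadExactlyOne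

/-- `G` is `k`-spread: for every choice of nontrivial elements `x 0, …, x (k - 1)` of `G` there is
some `y` in `G` which generates `G` together with each of them -/
def KSpread (G : Type) [Group G] (k : ℕ) : Prop :=
  ∀ x : Fin k → G, (∀ i, x i ≠ 1) → ∃ y : G, ∀ i, Subgroup.closure {x i, y} = ⊤

/-- There is a group of spread exactly one: `1` is the largest `k` such that it is `k`-spread. -/
theorem result : ∃ (G : Type) (_ : Group G), IsGreatest {k : ℕ | KSpread G k} 1 := by
  classical
  have conv : ∀ a b : Pool.Agent.R888.Spread.G, Subgroup.closure {a, b} = ⊤ ↔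
      Pool.Agent.R888.Spread.G ≤ Subgroup.closure {(a : Equiv.Perm ℝ), (b : Equiv.Perm ℝ)} := by
    intro a b
    have hmap : (Subgroup.closure {a, b}).map Pool.Agent.R888.Spread.G.subtype =
        Subgroup.closure {(a : Equiv.Perm ℝ), (b : Equiv.Perm ℝ)} := by
      rw [MonoidHom.map_closure]
      congr 1
      ext z
      simp [eq_comm]
    constructor
    · intro h
      rw [← hmap, h, ← MonoidHom.range_eq_map, Subgroup.range_subtype]
    · intro h
      rw [eq_top_iff]
      intro g _
      have h1 : (g : Equiv.Perm ℝ) ∈ (Subgroup.closure {a, b}).map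
          Pool.Agent.R888.Spread.G.subtype := by
        rw [hmap]
        exact h g.2
      obtain ⟨g', hg', e⟩ := h1
      have : g' = g := Subtype.ext e
      rwa [← this]
  refine ⟨Pool.Agent.R888.Spread.G, inferInstance, ?_, ?_⟩
  · intro x hx
    have h1 : ((x 0 : Pool.Agent.R888.Spread.G) : Equiv.Perm ℝ) ≠ 1 := by
      intro h
      exact hx 0 (Subtype.ext h)
    obtain ⟨y, hy, -, h⟩ := Pool.Agent.R888.Spread.gen_any (x 0).2 h1
    refine ⟨⟨y, hy⟩, fun i => ?_⟩
    rw [Subsingleton.elim i 0]
    exact (conv _ _).2 h
  · intro k hk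
    by_contra hlt
    push Not at hlt
    have m1 : Pool.Agent.R888.Spread.XX 0 ∈ Pool.Agent.Helper283.PL.Sup 0 (0 + 1) :=
      Pool.Agent.R888.Spread.XX_mem Pool.Agent.Helper283.PL.Dy.zero
    have m2 : Pool.Agent.R888.Spread.XX 1 ∈ Pool.Agent.Helper283.PL.Sup 1 (1 + 1) :=
      Pool.Agent.R888.Spread.XX_mem Pool.Agent.Helper283.PL.Dy.one
    let x1 : Pool.Agent.R888.Spread.G := ⟨_, Pool.Agent.R888.Spread.Sup_le_G m1⟩
    let x2 : Pool.Agent.R888.Spread.G := ⟨_, Pool.Agent.R888.Spread.Sup_le_G m2⟩
    have n1 : x1 ≠ 1 := fun h => Pool.Agent.R888.Spread.XX_ne 0 (congrArg Subtype.val h)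
    have n2 : x2 ≠ 1 := fun h => Pool.Agent.R888.Spread.XX_ne 1 (congrArg Subtype.val h)
    obtain ⟨y, hy⟩ := hk (fun i => if i.1 = 0 then x1 else x2) (by
      intro i
      split_ifs
      · exact n1
      · exact n2)
    have h1 := hy ⟨0, by omega⟩
    have h2 := hy ⟨1, hlt⟩
    rw [if_pos rfl] at h1
    rw [if_neg (by norm_num)] at h2
    have g1 : Pool.Agent.R888.Spread.G ≤
        Subgroup.closure {Pool.Agent.R888.Spread.XX 0, (y : Equiv.Perm ℝ)} := (conv x1 y).1 h1
    have g2 : Pool.Agent.R888.Spread.G ≤
        Subgroup.closure {Pool.Agent.R888.Spread.XX 1, (y : Equiv.Perm ℝ)} := (conv x2 y).1 h2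
    have h01 : (0 : ℝ) + 1 ≤ 1 := by norm_num
    exact Pool.Agent.R888.Spread.no_common m1 m2 h01 y.2 g1 g2

end Pool.Agent.Results.MP_317377_al.SpreadExactlyOne
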